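import Pool.Agent.Helper34.QA.Stmts

/-!
# Row PA: the variation of a functional on `C(K, E)`
-/

set_option autoImplicit false

namespace Pool.Agent.Helper32.QA

open Filter Topology MeasureTheory Pool.Agent.Helper31.BQ Pool.Agent.Helper34.QA
open scoped NNReal

universe u v

section

variable {K : Type u} [TopologicalSpace K] [CompactSpace K]
  {E : Type v} [NormedAddCommGroup E] [NormedSpace ℝ E]

/-- the values of `Φ` on the maps dominated by `u` -/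
def SS (Φ : C(K, E) →L[ℝ] ℝ) (w : C(K, ℝ≥0)) : Set ℝ :=
  {r | ∃ g : C(K, E), (∀ x, ‖g x‖ ≤ (w x : ℝ)) ∧ r = Φ g}

theorem SS_bdd (Φ : C(K, E) →L[ℝ] ℝ) (w : C(K, ℝ≥0)) : BddAbove (SS Φ w) := by
  let w' : C(K, ℝ) := ⟨fun x => (w x : ℝ), NNReal.continuous_coe.comp w.continuous⟩
  refine ⟨‖Φ‖ * ‖w'‖, ?_⟩
  rintro _ ⟨g, hg, rfl⟩
  refine (le_abs_self _).trans ?_
  rw [← Real.norm_eq_abs]
  refine (Φ.le_opNorm g).trans (mul_le_mul_of_nonneg_left ?_ (norm_nonneg _))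
  rw [ContinuousMap.norm_le _ (norm_nonneg _)]
  intro x
  refine (hg x).trans ((le_abs_self _).trans ?_)
  exact ContinuousMap.norm_coe_le_norm w' x

omit [CompactSpace K] in
theorem SS_zero (Φ : C(K, E) →L[ℝ] ℝ) (w : C(K, ℝ≥0)) : (0 : ℝ) ∈ SS Φ w :=
  ⟨0, fun x => by simp, by simp⟩

/-- the supremum -/
noncomputable def PP (Φ : C(K, E) →L[ℝ] ℝ) (w : C(K, ℝ≥0)) : ℝ := sSup (SS Φ w)

theorem le_PP (Φ : C(K, E) →L[ℝ] ℝ) (w : C(K, ℝ≥0)) (g : C(K, E))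
    (hg : ∀ x, ‖g x‖ ≤ (w x : ℝ)) : Φ g ≤ PP Φ w := le_csSup (SS_bdd Φ w) ⟨g, hg, rfl⟩

theorem PP_nonneg (Φ : C(K, E) →L[ℝ] ℝ) (w : C(K, ℝ≥0)) : 0 ≤ PP Φ w :=
  le_csSup (SS_bdd Φ w) (SS_zero Φ w)

theorem PP_le (Φ : C(K, E) →L[ℝ] ℝ) (w : C(K, ℝ≥0)) (c : ℝ)
    (h : ∀ g : C(K, E), (∀ x, ‖g x‖ ≤ (w x : ℝ)) → Φ g ≤ c) : PP Φ w ≤ c := by
  refine csSup_le ⟨0, SS_zero Φ w⟩ ?_
  rintro _ ⟨g, hg, rfl⟩
  exact h g hg

theorem PP_add_ge (Φ : C(K, E) →L[ℝ] ℝ) (w z : C(K, ℝ≥0)) :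
    PP Φ w + PP Φ z ≤ PP Φ (w + z) := by
  have h1 : ∀ g : C(K, E), (∀ x, ‖g x‖ ≤ (w x : ℝ)) → PP Φ z ≤ PP Φ (w + z) - Φ g := by
    intro g hg
    refine PP_le Φ z _ fun g' hg' => ?_
    have h2 := le_PP Φ (w + z) (g + g') (fun x => by
      refine (norm_add_le _ _).trans ?_
      rw [ContinuousMap.add_apply, NNReal.coe_add]
      exact add_le_add (hg x) (hg' x))
    rw [map_add] at h2
    linarith
  have h3 : PP Φ w ≤ PP Φ (w + z) - PP Φ z := by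
    refine PP_le Φ w _ fun g hg => ?_
    have := h1 g hg
    linarith
  linarith

theorem PP_add_le (Φ : C(K, E) →L[ℝ] ℝ) (w z : C(K, ℝ≥0)) :
    PP Φ (w + z) ≤ PP Φ w + PP Φ z := by
  refine PP_le Φ (w + z) _ fun g hg => ?_
  have key : ∀ ε : ℝ, 0 < ε → Φ g ≤ PP Φ w + PP Φ z + ‖Φ‖ * ε := by
    intro ε hε
    have hcw : Continuous fun x => (w x : ℝ) := NNReal.continuous_coe.comp w.continuous
    have hcz : Continuous fun x => (z x : ℝ) := NNReal.continuous_coe.comp z.continuous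
    have hden : ∀ x, 0 < (w x : ℝ) + (z x : ℝ) + ε := fun x => by positivity
    have hcd : Continuous fun x => ((w x : ℝ) + (z x : ℝ) + ε)⁻¹ :=
      ((hcw.add hcz).add continuous_const).inv₀ fun x => (hden x).ne'
    let g1 : C(K, E) := ⟨fun x => ((w x : ℝ) * ((w x : ℝ) + (z x : ℝ) + ε)⁻¹) • g x,
      (hcw.mul hcd).smul g.continuous⟩
    let g2 : C(K, E) := ⟨fun x => ((z x : ℝ) * ((w x : ℝ) + (z x : ℝ) + ε)⁻¹) • g x,
      (hcz.mul hcd).smul g.continuous⟩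
    let g3 : C(K, E) := ⟨fun x => (ε * ((w x : ℝ) + (z x : ℝ) + ε)⁻¹) • g x,
      (continuous_const.mul hcd).smul g.continuous⟩
    have hsum : g = g1 + g2 + g3 := by
      ext x
      have h1 : (g1 + g2 + g3) x = ((w x : ℝ) * ((w x : ℝ) + (z x : ℝ) + ε)⁻¹) • g x +
          ((z x : ℝ) * ((w x : ℝ) + (z x : ℝ) + ε)⁻¹) • g x +
          (ε * ((w x : ℝ) + (z x : ℝ) + ε)⁻¹) • g x := rfl
      rw [h1, ← add_smul, ← add_smul, ← add_mul, ← add_mul, mul_inv_cancel₀ (hden x).ne',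
        one_smul]
    have hgx : ∀ x, ‖g x‖ ≤ (w x : ℝ) + (z x : ℝ) + ε := by
      intro x
      have := hg x
      rw [ContinuousMap.add_apply, NNReal.coe_add] at this
      linarith
    have hfac : ∀ (x : K) (c : ℝ), 0 ≤ c →
        ‖(c * ((w x : ℝ) + (z x : ℝ) + ε)⁻¹) • g x‖ ≤ c := by
      intro x c hc
      rw [norm_smul, Real.norm_eq_abs, abs_of_nonneg (by have := hden x; positivity), mul_assoc]
      refine mul_le_of_le_one_right hc ?_
      rw [inv_mul_le_iff₀ (hden x), mul_one]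
      exact hgx x
    have h1 := le_PP Φ w g1 fun x => hfac x _ (w x).coe_nonneg
    have h2 := le_PP Φ z g2 fun x => hfac x _ (z x).coe_nonneg
    have h3 : Φ g3 ≤ ‖Φ‖ * ε := by
      refine (le_abs_self _).trans ?_
      rw [← Real.norm_eq_abs]
      refine (Φ.le_opNorm g3).trans (mul_le_mul_of_nonneg_left ?_ (norm_nonneg _))
      rw [ContinuousMap.norm_le _ hε.le]
      exact fun x => hfac x ε hε.le
    rw [hsum, map_add, map_add]
    linarith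
  by_contra hcon
  push Not at hcon
  have hΦ : 0 ≤ ‖Φ‖ := norm_nonneg _
  have h1 := key ((Φ g - (PP Φ w + PP Φ z)) / (2 * (‖Φ‖ + 1))) (by
    have : 0 < Φ g - (PP Φ w + PP Φ z) := by linarith
    positivity)
  have h2 : ‖Φ‖ * ((Φ g - (PP Φ w + PP Φ z)) / (2 * (‖Φ‖ + 1))) ≤
      (Φ g - (PP Φ w + PP Φ z)) / 2 := by
    rw [mul_div_assoc', div_le_div_iff₀ (by positivity) (by norm_num)]
    nlinarith
  linarith

theorem PP_smul_ge (Φ : C(K, E) →L[ℝ] ℝ) (c : ℝ≥0) (w : C(K, ℝ≥0)) :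
    (c : ℝ) * PP Φ w ≤ PP Φ (c • w) := by
  rcases eq_or_lt_of_le c.coe_nonneg with h | h
  · rw [← h, zero_mul]
    exact PP_nonneg _ _
  · rw [mul_comm, ← le_div_iff₀ h]
    refine PP_le Φ w _ fun g hg => ?_
    rw [le_div_iff₀ h]
    have h1 := le_PP Φ (c • w) ((c : ℝ) • g) (fun x => by
      have e : ((c • w) x : ℝ≥0) = c * w x := rfl
      rw [e, NNReal.coe_mul, ContinuousMap.smul_apply, norm_smul, Real.norm_eq_abs,
        abs_of_nonneg c.coe_nonneg]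
      exact mul_le_mul_of_nonneg_left (hg x) c.coe_nonneg)
    rw [map_smul, smul_eq_mul] at h1
    linarith

theorem PP_smul (Φ : C(K, E) →L[ℝ] ℝ) (c : ℝ≥0) (w : C(K, ℝ≥0)) :
    PP Φ (c • w) = (c : ℝ) * PP Φ w := by
  refine le_antisymm ?_ (PP_smul_ge Φ c w)
  rcases eq_or_lt_of_le c.coe_nonneg with h | h
  · have hc : c = 0 := by
      apply NNReal.eq
      exact h.symm
    subst hc
    rw [NNReal.coe_zero, zero_mul]
    refine PP_le Φ _ _ fun g hg => ?_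
    have hg0 : g = 0 := by
      ext x
      have h1 := hg x
      have e : (((0 : ℝ≥0) • w) x : ℝ≥0) = 0 := by
        have e' : (((0 : ℝ≥0) • w) x : ℝ≥0) = 0 * w x := rfl
        rw [e', zero_mul]
      rw [e, NNReal.coe_zero] at h1
      exact norm_le_zero_iff.1 h1
    rw [hg0, map_zero]
  · have hc : c ≠ 0 := fun h0 => by rw [h0, NNReal.coe_zero] at h; exact lt_irrefl _ h
    have h1 := PP_smul_ge Φ c⁻¹ (c • w)
    rw [smul_smul, inv_mul_cancel₀ hc, one_smul, NNReal.coe_inv, inv_mul_le_iff₀ h] at h1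
    exact h1

end

theorem st_PA : ST_PA.{u, v} := by
  intro K _ _ _ E _ _ Φ
  refine ⟨fun w => ⟨PP Φ w, PP_nonneg Φ w⟩, fun w z => ?_, fun c w => ?_, fun g w hg => ?_⟩
  · apply NNReal.eq
    exact le_antisymm (PP_add_le Φ w z) (PP_add_ge Φ w z)
  · apply NNReal.eq
    exact PP_smul Φ c w
  · exact le_PP Φ w g hg

end Pool.Agent.Helper32.QA
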